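import Pool.Agent.Helper75_FK.Zed

/-! The principle P* of helper45 (note 2137 to MP_18e858_co) in a ring with a pointed positive
cone. -/

set_option autoImplicit false

namespace Pool.Agent.FKZ

variable {A : Type*} [Ring A]

/-- A product of commuting elements dominates a given monomial. -/
theorem dominate (C : Subsemiring A) (X : Set A) (f : A)
    (hX : ∀ t ∈ X, t ∈ C ∧ ∃ s, s ∈ C ∧ s - t ∈ C ∧ s * f = f * s) :
    ∀ m ∈ Submonoid.closure X, m ∈ C ∧ ∃ M, M ∈ C ∧ M - m ∈ C ∧ M * f = f * M := by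
  intro m hm
  induction hm using Submonoid.closure_induction with
  | mem t ht => exact hX t ht
  | one => exact ⟨C.one_mem, 1, C.one_mem, by rw [sub_self]; exact C.zero_mem, by simp⟩
  | mul a b _ _ iha ihb =>
    obtain ⟨ha, M, hM, hMa, hMf⟩ := iha
    obtain ⟨hb, N, hN, hNb, hNf⟩ := ihb
    refine ⟨C.mul_mem ha hb, M * N, C.mul_mem hM hN, ?_, ?_⟩
    · have e : M * N - a * b = (M - a) * N + a * (N - b) := by noncomm_ring
      rw [e]
      exact C.add_mem (C.mul_mem hMa hN) (C.mul_mem ha hNb)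
    · rw [mul_assoc, hNf, ← mul_assoc, hMf, mul_assoc]

/-- P*, words in the middle. -/
theorem pstarWord (C : Subsemiring A) (hpt : ∀ a, a ∈ C → -a ∈ C → a = 0) (X : Set A)
    {y f p q : A} (hX : ∀ t ∈ X, t ∈ C ∧ ∃ s, s ∈ C ∧ s - t ∈ C ∧ s * f = f * s)
    (hyf : y * f = 0) (hp : p ∈ C) (hq : q ∈ C) (hpy : y - p ∈ C) (hqf : f - q ∈ C) :
    ∀ m ∈ Submonoid.closure X, p * m * q = 0 := by
  intro m hm
  obtain ⟨hm0, M, hM, hMm, hMf⟩ := dominate C X f hX m hm
  have hf : f ∈ C := by
    have : f = q + (f - q) := by abel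
    rw [this]; exact C.add_mem hq hqf
  apply hpt
  · exact C.mul_mem (C.mul_mem hp hm0) hq
  · have h0 : y * M * f = 0 := by rw [mul_assoc, hMf, ← mul_assoc, hyf, zero_mul]
    have e : -(p * m * q) = (y - p) * M * f + p * (M - m) * f + p * m * (f - q) := by
      have : (y - p) * M * f + p * (M - m) * f + p * m * (f - q) = y * M * f - p * m * q := by
        noncomm_ring
      rw [this, h0, zero_sub]
    rw [e]
    refine C.add_mem (C.add_mem ?_ ?_) ?_
    · exact C.mul_mem (C.mul_mem hpy hM) hf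
    · exact C.mul_mem (C.mul_mem hp hMm) hf
    · exact C.mul_mem (C.mul_mem hp hm0) hqf

/-- P*: everything in the middle. -/
theorem pstar (C : Subsemiring A) (hpt : ∀ a, a ∈ C → -a ∈ C → a = 0) (X : Set A)
    (hgen : Subring.closure X = ⊤)
    {y f p q : A} (hX : ∀ t ∈ X, t ∈ C ∧ ∃ s, s ∈ C ∧ s - t ∈ C ∧ s * f = f * s)
    (hyf : y * f = 0) (hp : p ∈ C) (hq : q ∈ C) (hpy : y - p ∈ C) (hqf : f - q ∈ C) :
    ∀ m, p * m * q = 0 := by
  intro m
  have hm : m ∈ Subring.closure X := by rw [hgen]; exact Subring.mem_top m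
  rw [Subring.mem_closure_iff] at hm
  induction hm using AddSubgroup.closure_induction with
  | mem t ht => exact pstarWord C hpt X hX hyf hp hq hpy hqf t ht
  | zero => simp
  | add a b _ _ ha hb => rw [mul_add, add_mul, ha, hb, add_zero]
  | neg a _ ha => rw [mul_neg, neg_mul, ha, neg_zero]

/-- The annihilator ideal of the positive parts of `y`. -/
def Ann (C : Subsemiring A) (y f : A) : Prop := ∀ p, p ∈ C → y - p ∈ C → ∀ m, p * m * f = 0

theorem ann_idl (C : Subsemiring A) (y : A) : Idl (Ann C y) where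
  add a b ha hb := by
    intro p hp hy m
    rw [mul_add, ha p hp hy m, hb p hp hy m, add_zero]
  neg a ha := by
    intro p hp hy m
    rw [mul_neg, ha p hp hy m, neg_zero]
  left c a ha := by
    intro p hp hy m
    have := ha p hp hy (m * c)
    rw [← this]; noncomm_ring
  right c a ha := by
    intro p hp hy m
    rw [← mul_assoc, ha p hp hy m, zero_mul]

/-- P* and lemma Z together: if `y f = 0`, `f` commutes with sums dominating all letters and
every word of `r` outside letters in distinct rows is a part of `f`, then `y` kills every word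
without inside letters in which at least `r` rows occur. -/
theorem kill {ι : Type*} [LinearOrder ι] {x : ι → ι → A} {low : ι → Prop}
    (C : Subsemiring A) (hpt : ∀ a, a ∈ C → -a ∈ C → a = 0)
    (hgen : Subring.closure {t | ∃ a b, a < b ∧ t = x a b} = ⊤) (hx : Rel x)
    (hcut : ∀ a b, low a → ¬ low b → a < b) (r : ℕ) {y f : A}
    (hC : ∀ a b, a < b → x a b ∈ C)
    (hX : ∀ a b, a < b → ∃ s, s ∈ C ∧ s - x a b ∈ C ∧ s * f = f * s)
    (hy : y ∈ C) (hyf : y * f = 0)
    (hf : ∀ l : List (ι × ι), Out low l → (l.map Prod.fst).Nodup → l.length = r →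
      f - W x l ∈ C)
    (l : List (ι × ι)) (hno : NoIn low l) (S : Finset ι) (hS : r ≤ S.card)
    (hSl : ∀ a ∈ S, low a ∧ ∃ p ∈ l, p.1 = a) : y * W x l = 0 := by
  have hW : ∀ l : List (ι × ι), Out low l → W x l ∈ C := by
    intro l hl
    rw [W]
    apply C.list_prod_mem
    intro t ht
    obtain ⟨p, hp, rfl⟩ := List.mem_map.1 ht
    exact hC _ _ (hcut _ _ (hl p hp).1 (hl p hp).2)
  have h1 : Ann C y (W x l) := by
    apply zedCount hx hcut (ann_idl C y) r _ l hno S hS hSl
    intro m hout hnd hlen p hp hyp k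
    refine pstar C hpt _ hgen ?_ hyf hp (hW m hout) hyp (hf m hout hnd hlen) k
    rintro t ⟨a, b, hab, rfl⟩
    exact ⟨hC a b hab, hX a b hab⟩
  have := h1 y hy (by rw [sub_self]; exact C.zero_mem) 1
  rwa [mul_one] at this

end Pool.Agent.FKZ
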