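import Mathlib

/-! Lemma Z for the Fomin-Kirillov algebra (notes of helper45 to MP_18e858_co), in a form that
uses only the quadratic relations and a two sided ideal. -/

set_option autoImplicit false
set_option linter.unusedSectionVars false

namespace Pool.Agent.FKZ

variable {ι : Type*} [LinearOrder ι] {A : Type*} [Ring A]

/-- The quadratic relations of the Fomin-Kirillov algebra. -/
structure Rel (x : ι → ι → A) : Prop where
  r1 : ∀ a b c, a < b → b < c → x a c * x a b + x b c * x a c = x a b * x b c
  r2 : ∀ a b c, a < b → b < c → x a b * x a c + x a c * x b c = x b c * x a b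
  cm : ∀ a b c d, a < b → c < d → a ≠ c → a ≠ d → b ≠ c → b ≠ d →
    x a b * x c d = x c d * x a b

/-- A two sided ideal as a predicate. -/
structure Idl (I : A → Prop) : Prop where
  add : ∀ a b, I a → I b → I (a + b)
  neg : ∀ a, I a → I (-a)
  left : ∀ c a, I a → I (c * a)
  right : ∀ c a, I a → I (a * c)

theorem Idl.sub {I : A → Prop} (h : Idl I) {a b : A} (ha : I a) (hb : I b) : I (a - b) := by
  rw [sub_eq_add_neg]; exact h.add _ _ ha (h.neg _ hb)

/-- The value of a word. -/
def W (x : ι → ι → A) (l : List (ι × ι)) : A := (l.map (fun p => x p.1 p.2)).prod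

theorem W_nil (x : ι → ι → A) : W x [] = 1 := rfl

theorem W_cons (x : ι → ι → A) (p : ι × ι) (l : List (ι × ι)) :
    W x (p :: l) = x p.1 p.2 * W x l := by simp [W]

theorem W_append (x : ι → ι → A) (l m : List (ι × ι)) : W x (l ++ m) = W x l * W x m := by
  simp [W]

/-- All rows of `R` occur. -/
def Full (R : ι → Prop) (l : List (ι × ι)) : Prop := ∀ a, R a → ∃ p ∈ l, p.1 = a

/-- No inside letters. -/
def NoIn (low : ι → Prop) (l : List (ι × ι)) : Prop := ∀ p ∈ l, p.1 < p.2 ∧ ¬ low p.2

/-- Outside letters only. -/
def Out (low : ι → Prop) (l : List (ι × ι)) : Prop := ∀ p ∈ l, low p.1 ∧ ¬ low p.2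

theorem NoIn.of_append_left {low : ι → Prop} {l m : List (ι × ι)} (h : NoIn low (l ++ m)) :
    NoIn low l := fun p hp => h p (List.mem_append_left _ hp)

theorem commute_W {x : ι → ι → A} (t : A) (l : List (ι × ι))
    (h : ∀ p ∈ l, t * x p.1 p.2 = x p.1 p.2 * t) : t * W x l = W x l * t := by
  induction l with
  | nil => simp [W_nil]
  | cons p l ih =>
    rw [W_cons, ← mul_assoc, h p (by simp), mul_assoc,
      ih (fun q hq => h q (by simp [hq])), mul_assoc]

/-- Either the rows are distinct, or there is a first letter whose row occurs again. -/
theorem split_first (l : List (ι × ι)) :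
    (l.map Prod.fst).Nodup ∨ ∃ l0 p l2, l = l0 ++ p :: l2 ∧ p.1 ∈ l2.map Prod.fst ∧
      (∀ q ∈ l0, q.1 ∉ (p :: l2).map Prod.fst) ∧ (l0.map Prod.fst).Nodup := by
  induction l with
  | nil => left; simp
  | cons q l ih =>
    by_cases hq : q.1 ∈ l.map Prod.fst
    · right
      exact ⟨[], q, l, by simp, hq, by simp, by simp⟩
    · rcases ih with ih | ⟨l0, p, l2, e, h1, h2, h3⟩
      · left
        rw [List.map_cons, List.nodup_cons]
        exact ⟨hq, ih⟩
      · right
        refine ⟨q :: l0, p, l2, by simp [e], h1, ?_, ?_⟩
        · intro r hr
          rcases List.mem_cons.1 hr with rfl | hr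
          · intro h
            apply hq
            rw [e, List.map_append, List.mem_append]
            exact Or.inr h
          · exact h2 r hr
        · rw [List.map_cons, List.nodup_cons]
          refine ⟨?_, h3⟩
          intro h
          apply hq
          rw [e, List.map_append, List.mem_append]
          exact Or.inl h

/-- The last letter in a column. -/
theorem split_last (b : ι) (l : List (ι × ι)) :
    (∀ q ∈ l, q.2 ≠ b) ∨ ∃ l1 a l2, l = l1 ++ (a, b) :: l2 ∧ ∀ q ∈ l2, q.2 ≠ b := by
  induction l with
  | nil => left; simp
  | cons q l ih =>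
    rcases ih with ih | ⟨l1, a, l2, e, h⟩
    · by_cases hq : q.2 = b
      · right
        refine ⟨[], q.1, l, ?_, ih⟩
        rw [← hq]; simp
      · left
        intro r hr
        rcases List.mem_cons.1 hr with rfl | hr
        · exact hq
        · exact ih r hr
    · right
      exact ⟨q :: l1, a, l2, by simp [e], h⟩

section

variable {x : ι → ι → A} {low R : ι → Prop} {I : A → Prop}

/-- Two letters with different rows and different columns commute. -/
theorem out_comm (hx : Rel x) (hcut : ∀ a b, low a → ¬ low b → a < b) {p q : ι × ι}
    (hp : low p.1 ∧ ¬ low p.2) (hq : low q.1 ∧ ¬ low q.2) (h1 : p.1 ≠ q.1) (h2 : p.2 ≠ q.2) :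
    x p.1 p.2 * x q.1 q.2 = x q.1 q.2 * x p.1 p.2 := by
  apply hx.cm _ _ _ _ (hcut _ _ hp.1 hp.2) (hcut _ _ hq.1 hq.2) h1 _ _ h2
  · intro h; apply hq.2; rw [← h]; exact hp.1
  · intro h; apply hp.2; rw [h]; exact hq.1

/-- An inside letter. -/
def tau (x : ι → ι → A) (a a' : ι) : A := if a < a' then x a a' else x a' a

theorem tau_comm (hx : Rel x) (hcut : ∀ a b, low a → ¬ low b → a < b) {a a' : ι} (ha : low a)
    (ha' : low a') (hne : a ≠ a') {q : ι × ι} (hq : low q.1 ∧ ¬ low q.2) (h1 : q.1 ≠ a)
    (h2 : q.1 ≠ a') : tau x a a' * x q.1 q.2 = x q.1 q.2 * tau x a a' := by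
  have e1 : a ≠ q.2 := by intro h; apply hq.2; rw [← h]; exact ha
  have e2 : a' ≠ q.2 := by intro h; apply hq.2; rw [← h]; exact ha'
  have hlt := hcut _ _ hq.1 hq.2
  rcases lt_or_gt_of_ne hne with h | h
  · rw [tau, if_pos h]
    exact hx.cm _ _ _ _ h hlt (Ne.symm h1) e1 (Ne.symm h2) e2
  · rw [tau, if_neg (not_lt.2 h.le)]
    exact hx.cm _ _ _ _ h hlt (Ne.symm h2) e2 (Ne.symm h1) e1

/-- Moving `tau` past a letter in row `a'`. -/
theorem tau_move (hx : Rel x) (hcut : ∀ a b, low a → ¬ low b → a < b) {a a' c : ι} (ha : low a)
    (ha' : low a') (hc : ¬ low c) (hne : a ≠ a') :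
    tau x a a' * x a' c = x a c * tau x a a' + x a' c * x a c ∨
    tau x a a' * x a' c = x a c * tau x a a' - x a' c * x a c := by
  rcases lt_or_gt_of_ne hne with h | h
  · left
    rw [tau, if_pos h]
    exact (hx.r1 a a' c h (hcut _ _ ha' hc)).symm
  · right
    rw [tau, if_neg (not_lt.2 h.le)]
    have := hx.r2 a' a c h (hcut _ _ ha hc)
    rw [← this]; abel

/-- Exchange of two letters in the same column. -/
theorem col_move (hx : Rel x) (hcut : ∀ a b, low a → ¬ low b → a < b) {a a' b : ι} (ha : low a)
    (ha' : low a') (hb : ¬ low b) (hne : a ≠ a') :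
    x a b * x a' b = x a' b * tau x a a' - tau x a a' * x a b ∨
    x a b * x a' b = tau x a a' * x a b - x a' b * tau x a a' := by
  rcases lt_or_gt_of_ne hne with h | h
  · left
    rw [tau, if_pos h]
    have := hx.r2 a a' b h (hcut _ _ ha' hb)
    rw [← this]; abel
  · right
    rw [tau, if_neg (not_lt.2 h.le)]
    have := hx.r1 a' a b h (hcut _ _ ha hb)
    rw [← this]; abel

/-- The step for words of outside letters. -/
theorem outStep (hx : Rel x) (hcut : ∀ a b, low a → ¬ low b → a < b) (hI : Idl I) (N : ℕ)
    (IH : ∀ l : List (ι × ι), l.length < N → Out low l → Full R l → I (W x l))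
    (k : ℕ) : ∀ (l0 : List (ι × ι)) (a' b : ι) (l2 : List (ι × ι)), l0.length = k →
      (l0 ++ (a', b) :: l2).length = N → Out low (l0 ++ (a', b) :: l2) →
      Full R (l0 ++ (a', b) :: l2) → a' ∈ l2.map Prod.fst →
      (∀ q ∈ l0, q.1 ∉ ((a', b) :: l2).map Prod.fst) → (l0.map Prod.fst).Nodup →
      I (W x (l0 ++ (a', b) :: l2)) := by
  induction k using Nat.strong_induction_on with
  | _ k ihk =>
  intro l0 a' b l2 hk hN hout hfull hrep hdis hnd
  have hb' : low a' ∧ ¬ low b := hout (a', b) (by simp)
  have hout0 : ∀ q ∈ l0, low q.1 ∧ ¬ low q.2 := fun q hq => hout q (by simp [hq])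
  have hout2 : ∀ q ∈ l2, low q.1 ∧ ¬ low q.2 := fun q hq => hout q (by simp [hq])
  have hrow : ∀ q ∈ l0, q.1 ≠ a' := by
    intro q hq h
    exact hdis q hq (by simp [h])
  rcases split_last b l0 with hcol | ⟨l01, a, l02, e, hcol⟩
  · -- the letter moves to the front
    have e1 : W x (l0 ++ (a', b) :: l2) = x a' b * W x (l0 ++ l2) := by
      rw [W_append, W_cons, W_append, ← mul_assoc, ← mul_assoc]
      congr 1
      refine (commute_W (x a' b) l0 ?_).symm
      intro p hp
      exact out_comm hx hcut (p := (a', b)) hb' (hout0 p hp) (Ne.symm (hrow p hp))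
        (Ne.symm (hcol p hp))
    rw [e1]
    apply hI.left
    apply IH
    · rw [← hN]; simp
    · intro q hq
      rcases List.mem_append.1 hq with h | h
      · exact hout0 q h
      · exact hout2 q h
    · intro r hr
      obtain ⟨p, hp, hpr⟩ := hfull r hr
      rcases List.mem_append.1 hp with h | h
      · exact ⟨p, List.mem_append_left _ h, hpr⟩
      · rcases List.mem_cons.1 h with h | h
        · obtain ⟨q, hq, hq2⟩ := List.mem_map.1 hrep
          refine ⟨q, List.mem_append_right _ hq, ?_⟩
          rw [hq2, ← hpr, h]
        · exact ⟨p, List.mem_append_right _ h, hpr⟩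
  · subst e
    have hab : low a ∧ ¬ low b := hout0 (a, b) (by simp)
    have hne : a ≠ a' := hrow (a, b) (by simp)
    have hout01 : ∀ q ∈ l01, low q.1 ∧ ¬ low q.2 := fun q hq => hout0 q (by simp [hq])
    have hout02 : ∀ q ∈ l02, low q.1 ∧ ¬ low q.2 := fun q hq => hout0 q (by simp [hq])
    have hnd' : (l01.map Prod.fst).Nodup ∧ (a ∉ l02.map Prod.fst) ∧ (a ∉ l01.map Prod.fst) ∧
        (∀ q ∈ l01, q.1 ∉ l02.map Prod.fst) := by
      rw [List.map_append, List.map_cons, List.nodup_append] at hnd
      obtain ⟨h1, h2, h3⟩ := hnd
      rw [List.nodup_cons] at h2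
      refine ⟨h1, h2.1, ?_, ?_⟩
      · intro h
        exact h3 a h a (by simp) rfl
      · intro q hq h
        exact h3 q.1 (List.mem_map_of_mem hq) q.1 (by simp only [List.mem_cons]; right; exact h)
          rfl
    obtain ⟨hn1, hn2, hn3, hn4⟩ := hnd'
    have ha2 : a ∉ l2.map Prod.fst := by
      intro h
      exact hdis (a, b) (by simp) (by simp only [List.map_cons, List.mem_cons]; right; exact h)
    have hlen : l01.length + l02.length + l2.length + 2 = N := by
      rw [← hN]; simp; omega
    -- the letter moves next to `(a, b)`
    have e1 : W x ((l01 ++ (a, b) :: l02) ++ (a', b) :: l2) =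
        W x l01 * (x a b * x a' b) * W x l02 * W x l2 := by
      have hc : x a' b * W x l02 = W x l02 * x a' b := by
        apply commute_W
        intro p hp
        exact out_comm hx hcut (p := (a', b)) hb' (hout02 p hp)
          (Ne.symm (hrow p (by simp [hp]))) (Ne.symm (hcol p hp))
      rw [W_append, W_append, W_cons, W_cons]
      simp only [mul_assoc]
      rw [← mul_assoc (W x l02) (x a' b), ← hc]
      simp only [mul_assoc]
    -- the second term
    have e2 : I (W x l01 * (tau x a a' * x a b) * W x l02 * W x l2) := by
      have hc : tau x a a' * W x l01 = W x l01 * tau x a a' := by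
        apply commute_W
        intro p hp
        refine tau_comm hx hcut hab.1 hb'.1 hne (hout01 p hp) ?_ (hrow p (by simp [hp]))
        intro h
        exact hn3 (by rw [← h]; exact List.mem_map_of_mem hp)
      have e3 : W x l01 * (tau x a a' * x a b) * W x l02 * W x l2 =
          tau x a a' * W x (l01 ++ (a, b) :: (l02 ++ l2)) := by
        rw [W_append, W_cons, W_append, ← mul_assoc (tau x a a'), hc]
        simp only [mul_assoc]
      rw [e3]
      apply hI.left
      apply IH
      · simp only [List.length_append, List.length_cons]; omega
      · intro q hq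
        rcases List.mem_append.1 hq with h | h
        · exact hout01 q h
        · rcases List.mem_cons.1 h with h | h
          · rw [h]; exact hab
          · rcases List.mem_append.1 h with h | h
            · exact hout02 q h
            · exact hout2 q h
      · intro r hr
        obtain ⟨p, hp, hpr⟩ := hfull r hr
        rcases List.mem_append.1 hp with h | h
        · refine ⟨p, ?_, hpr⟩
          simp only [List.mem_append, List.mem_cons] at h ⊢
          tauto
        · rcases List.mem_cons.1 h with h | h
          · obtain ⟨q, hq, hq2⟩ := List.mem_map.1 hrep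
            refine ⟨q, by simp [hq], ?_⟩
            rw [hq2, ← hpr, h]
          · exact ⟨p, by simp [h], hpr⟩
    -- the first term
    have key : ∀ (v u' : List (ι × ι)), Out low v → Out low u' →
        (a ∉ v.map Prod.fst) → (a' ∈ v.map Prod.fst ∨ a ∈ u'.map Prod.fst) →
        (∀ q ∈ l01, q.1 ∉ u'.map Prod.fst) → (∀ q ∈ l01, q.1 ∉ v.map Prod.fst) →
        (l01.length + 1 + u'.length + v.length + 1 = N) →
        (∀ r, R r → r ≠ a → ∃ p ∈ l01 ++ (a', b) :: (u' ++ v), p.1 = r) →
        I (W x (l01 ++ (a', b) :: u') * tau x a a' * W x v) := by
      intro v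
      induction v with
      | nil =>
        intro u' hv hu hav hor hd1 hd2 hlen' hfull'
        rw [W_nil, mul_one]
        apply hI.right
        have hau : a ∈ u'.map Prod.fst := by
          rcases hor with h | h
          · simp at h
          · exact h
        apply IH
        · simp only [List.length_append, List.length_cons]
          simp only [List.length_nil] at hlen'
          omega
        · intro q hq
          rcases List.mem_append.1 hq with h | h
          · exact hout01 q h
          · rcases List.mem_cons.1 h with h | h
            · rw [h]; exact hb'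
            · exact hu q h
        · intro r hr
          by_cases hra : r = a
          · obtain ⟨q, hq, hq2⟩ := List.mem_map.1 hau
            exact ⟨q, by simp [hq], by rw [hq2, hra]⟩
          · obtain ⟨p, hp, hpr⟩ := hfull' r hr hra
            exact ⟨p, by simpa using hp, hpr⟩
      | cons q v ih =>
        intro u' hv hu hav hor hd1 hd2 hlen' hfull'
        have hq := hv q (by simp)
        have hv' : Out low v := fun p hp => hv p (by simp [hp])
        have hqa : q.1 ≠ a := by
          intro h; exact hav (by simp [h])
        have hav' : a ∉ v.map Prod.fst := by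
          intro h
          exact hav (by simp only [List.map_cons, List.mem_cons]; right; exact h)
        have hd2q : ∀ r ∈ l01, r.1 ≠ q.1 := by
          intro r hr h
          exact hd2 r hr (by simp [h])
        have hd2v : ∀ r ∈ l01, r.1 ∉ v.map Prod.fst := by
          intro r hr h
          exact hd2 r hr (by simp only [List.map_cons, List.mem_cons]; right; exact h)
        simp only [List.length_cons] at hlen'
        by_cases hqr : q.1 = a'
        · -- a letter in row `a'`
          obtain ⟨q1, c⟩ := q
          simp only at hqr
          subst hqr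
          have hc : ¬ low c := hq.2
          -- first term
          have t1 : I (W x (l01 ++ (q1, b) :: (u' ++ [(a, c)])) * tau x a q1 * W x v) := by
            apply ih (u' ++ [(a, c)]) hv' _ hav' _ _ hd2v
            · simp only [List.length_append, List.length_cons, List.length_nil]; omega
            · intro r hr hra
              obtain ⟨p, hp, hpr⟩ := hfull' r hr hra
              simp only [List.mem_append, List.mem_cons] at hp
              rcases hp with h | h | h | h | h
              · exact ⟨p, by simp [h], hpr⟩
              · exact ⟨p, by simp [h], hpr⟩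
              · exact ⟨p, by simp [h], hpr⟩
              · refine ⟨(q1, b), by simp, ?_⟩
                rw [← hpr, h]
              · exact ⟨p, by simp [h], hpr⟩
            · intro p hp
              rcases List.mem_append.1 hp with h | h
              · exact hu p h
              · rw [List.mem_singleton.1 h]; exact ⟨hab.1, hc⟩
            · right; simp
            · intro r hr h
              rw [List.map_append, List.mem_append] at h
              rcases h with h | h
              · exact hd1 r hr h
              · simp only [List.map_cons, List.map_nil, List.mem_singleton] at h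
                exact hn3 (by rw [← h]; exact List.mem_map_of_mem hr)
          -- second term
          have t2 : I (W x (l01 ++ (q1, b) :: (u' ++ (q1, c) :: (a, c) :: v))) := by
            apply ihk l01.length _ l01 q1 b _ rfl
            · simp only [List.length_append, List.length_cons]; omega
            · intro p hp
              simp only [List.mem_append, List.mem_cons] at hp
              rcases hp with h | h | h | h | h | h
              · exact hout01 p h
              · rw [h]; exact hb'
              · exact hu p h
              · rw [h]; exact hq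
              · rw [h]; exact ⟨hab.1, hc⟩
              · exact hv' p h
            · intro r hr
              by_cases hra : r = a
              · exact ⟨(a, c), by simp, hra.symm⟩
              · obtain ⟨p, hp, hpr⟩ := hfull' r hr hra
                simp only [List.mem_append, List.mem_cons] at hp
                rcases hp with h | h | h | h | h
                · exact ⟨p, by simp [h], hpr⟩
                · exact ⟨p, by simp [h], hpr⟩
                · exact ⟨p, by simp [h], hpr⟩
                · exact ⟨p, by simp [h], hpr⟩
                · exact ⟨p, by simp [h], hpr⟩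
            · simp
            · intro r hr h
              simp only [List.map_cons, List.map_append, List.mem_cons, List.mem_append] at h
              rcases h with h | h | h | h | h
              · exact hrow r (by simp [hr]) h
              · exact hd1 r hr h
              · exact hrow r (by simp [hr]) h
              · exact hn3 (by rw [← h]; exact List.mem_map_of_mem hr)
              · exact hd2v r hr h
            · exact hn1
            · rw [← hk]; simp only [List.length_append, List.length_cons]; omega
          have e4 : ∀ z : A, W x (l01 ++ (q1, b) :: u') * tau x a q1 * (z * W x v) =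
              W x (l01 ++ (q1, b) :: u') * (tau x a q1 * z) * W x v := by
            intro z; simp only [mul_assoc]
          rw [W_cons, e4]
          have e5 : W x (l01 ++ (q1, b) :: (u' ++ [(a, c)])) =
              W x (l01 ++ (q1, b) :: u') * x a c := by
            have : l01 ++ (q1, b) :: (u' ++ [(a, c)]) = (l01 ++ (q1, b) :: u') ++ [(a, c)] := by
              simp
            rw [this, W_append (l := l01 ++ (q1, b) :: u'), W_cons (l := []), W_nil, mul_one]
          have e6 : W x (l01 ++ (q1, b) :: (u' ++ (q1, c) :: (a, c) :: v)) =
              W x (l01 ++ (q1, b) :: u') * (x q1 c * x a c) * W x v := by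
            have : l01 ++ (q1, b) :: (u' ++ (q1, c) :: (a, c) :: v) =
                (l01 ++ (q1, b) :: u') ++ ((q1, c) :: (a, c) :: v) := by
              simp
            rw [this, W_append (l := l01 ++ (q1, b) :: u'), W_cons (l := (a, c) :: v),
              W_cons (l := v)]
            simp only [mul_assoc]
          rw [e5] at t1
          rw [e6] at t2
          rcases tau_move hx hcut hab.1 hb'.1 hc hne with h | h
          · simp only
            rw [h, mul_add, add_mul]
            apply hI.add _ _ _ t2
            simpa only [mul_assoc] using t1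
          · simp only
            rw [h, mul_sub, sub_mul]
            apply hI.sub _ t2
            simpa only [mul_assoc] using t1
        · -- another row
          have hcq := tau_comm hx hcut hab.1 hb'.1 hne hq hqa hqr
          have e4 : W x (l01 ++ (a', b) :: u') * tau x a a' * W x (q :: v) =
              W x (l01 ++ (a', b) :: (u' ++ [q])) * tau x a a' * W x v := by
            have : l01 ++ (a', b) :: (u' ++ [q]) = (l01 ++ (a', b) :: u') ++ [q] := by
              simp
            rw [this, W_append (l := l01 ++ (a', b) :: u'), W_cons (l := []), W_nil, mul_one,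
              W_cons, mul_assoc, ← mul_assoc (tau x a a'), hcq]
            simp only [mul_assoc]
          rw [e4]
          apply ih (u' ++ [q]) hv' _ hav' _ _ hd2v
          · simp only [List.length_append, List.length_cons, List.length_nil]; omega
          · intro r hr hra
            obtain ⟨p, hp, hpr⟩ := hfull' r hr hra
            refine ⟨p, ?_, hpr⟩
            simp only [List.mem_append, List.mem_cons, List.not_mem_nil, or_false] at hp ⊢
            tauto
          · intro p hp
            rcases List.mem_append.1 hp with h | h
            · exact hu p h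
            · rw [List.mem_singleton.1 h]; exact hq
          · rcases hor with h | h
            · left
              rw [List.map_cons, List.mem_cons] at h
              rcases h with h | h
              · exact absurd h.symm hqr
              · exact h
            · right
              rw [List.map_append, List.mem_append]; left; exact h
          · intro r hr h
            rw [List.map_append, List.mem_append] at h
            rcases h with h | h
            · exact hd1 r hr h
            · simp only [List.map_cons, List.map_nil, List.mem_singleton] at h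
              exact hd2q r hr h
    have e3 : I (W x l01 * (x a' b * tau x a a') * W x l02 * W x l2) := by
      have hc : tau x a a' * W x l02 = W x l02 * tau x a a' := by
        apply commute_W
        intro p hp
        refine tau_comm hx hcut hab.1 hb'.1 hne (hout02 p hp) ?_ (hrow p (by simp [hp]))
        intro h
        exact hn2 (by rw [← h]; exact List.mem_map_of_mem hp)
      have e4 : W x l01 * (x a' b * tau x a a') * W x l02 * W x l2 =
          W x (l01 ++ (a', b) :: l02) * tau x a a' * W x l2 := by
        rw [W_append, W_cons]
        simp only [mul_assoc]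
        rw [← mul_assoc (tau x a a'), hc]
        simp only [mul_assoc]
      rw [e4]
      apply key l2 l02 hout2 hout02 ha2 (Or.inl hrep) hn4
      · intro q hq h
        exact hdis q (by simp [hq]) (by simp only [List.map_cons, List.mem_cons]; right; exact h)
      · omega
      · intro r hr hra
        obtain ⟨p, hp, hpr⟩ := hfull r hr
        simp only [List.mem_append, List.mem_cons] at hp
        rcases hp with (h | h | h) | h | h
        · exact ⟨p, by simp [h], hpr⟩
        · exact absurd (by rw [← hpr, h]) hra
        · exact ⟨p, by simp [h], hpr⟩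
        · exact ⟨p, by simp [h], hpr⟩
        · exact ⟨p, by simp [h], hpr⟩
    rw [e1]
    rcases col_move hx hcut hab.1 hb'.1 hb'.2 hne with h | h
    · rw [h, mul_sub, sub_mul, sub_mul]
      exact hI.sub e3 e2
    · rw [h, mul_sub, sub_mul, sub_mul]
      exact hI.sub e2 e3

/-- Words of outside letters. -/
theorem outWords (hx : Rel x) (hcut : ∀ a b, low a → ¬ low b → a < b) (hI : Idl I)
    (h0 : ∀ l : List (ι × ι), Out low l → Full R l → (l.map Prod.fst).Nodup → I (W x l)) :
    ∀ (N : ℕ) (l : List (ι × ι)), l.length = N → Out low l → Full R l → I (W x l) := by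
  intro N
  induction N using Nat.strong_induction_on with
  | _ N ih =>
  intro l hN hout hfull
  rcases split_first l with h | ⟨l0, p, l2, e, h1, h2, h3⟩
  · exact h0 l hout hfull h
  · subst e
    obtain ⟨a', b⟩ := p
    exact outStep hx hcut hI N (fun l hl h h' => ih l.length hl l rfl h h') l0.length l0 a' b l2
      rfl hN hout hfull h1 h2 h3

/-- The number of upper letters. -/
noncomputable def ups (low : ι → Prop) (l : List (ι × ι)) : ℕ := by
  classical exact (l.filter (fun p => ¬ low p.1)).length

theorem ups_append (l m : List (ι × ι)) : ups low (l ++ m) = ups low l + ups low m := by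
  classical
  simp [ups]

theorem ups_cons_low {p : ι × ι} (hp : low p.1) (l : List (ι × ι)) :
    ups low (p :: l) = ups low l := by
  classical
  simp [ups, hp]

theorem ups_cons_up {p : ι × ι} (hp : ¬ low p.1) (l : List (ι × ι)) :
    ups low (p :: l) = ups low l + 1 := by
  classical
  simp [ups, hp]

theorem out_or (l : List (ι × ι)) (h : NoIn low l) :
    Out low l ∨ ∃ l1 p l2, l = l1 ++ p :: l2 ∧ Out low l1 ∧ ¬ low p.1 := by
  classical
  induction l with
  | nil => left; intro p hp; simp at hp
  | cons q l ih =>
    by_cases hq : low q.1
    · rcases ih (fun p hp => h p (by simp [hp])) with ih | ⟨l1, p, l2, e, h1, h2⟩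
      · left
        intro p hp
        rcases List.mem_cons.1 hp with rfl | hp
        · exact ⟨hq, (h p (by simp)).2⟩
        · exact ih p hp
      · right
        refine ⟨q :: l1, p, l2, by simp [e], ?_, h2⟩
        intro r hr
        rcases List.mem_cons.1 hr with rfl | hr
        · exact ⟨hq, (h r (by simp)).2⟩
        · exact h1 r hr
    · right
      exact ⟨[], q, l, by simp, by intro p hp; simp at hp, hq⟩

/-- The step for upper letters. -/
theorem upStep (hx : Rel x) (hcut : ∀ a b, low a → ¬ low b → a < b) (hI : Idl I)
    (hR : ∀ a, R a → low a) (N u : ℕ)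
    (IH : ∀ l : List (ι × ι), l.length < N → NoIn low l → Full R l → I (W x l))
    (IHU : ∀ l : List (ι × ι), l.length = N → ups low l < u → NoIn low l → Full R l →
      I (W x l)) (c d : ι) (hc : ¬ low c) (hcd : c < d) (hd : ¬ low d) :
    ∀ (l1 l2 : List (ι × ι)), Out low l1 → (l1 ++ (c, d) :: l2).length = N →
      ups low (l1 ++ (c, d) :: l2) ≤ u → NoIn low (l1 ++ (c, d) :: l2) →
      Full R (l1 ++ (c, d) :: l2) → I (W x (l1 ++ (c, d) :: l2)) := by
  intro l1
  induction l1 using List.reverseRecOn with
  | nil =>
    intro l2 h1 hN hu hno hfull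
    rw [List.nil_append, W_cons]
    apply hI.left
    apply IH
    · rw [← hN]; simp
    · intro p hp; exact hno p (by simp [hp])
    · intro r hr
      obtain ⟨p, hp, hpr⟩ := hfull r hr
      rcases List.mem_cons.1 (by simpa using hp) with h | h
      · exfalso; apply hc; rw [h] at hpr; simp only at hpr; rw [hpr]; exact hR _ hr
      · exact ⟨p, h, hpr⟩
  | append_singleton l1 q ih =>
    intro l2 h1 hN hu hno hfull
    obtain ⟨a, b⟩ := q
    have hab : low a ∧ ¬ low b := h1 (a, b) (by simp)
    have h1' : Out low l1 := fun p hp => h1 p (by simp [hp])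
    have hlt : a < b := hcut _ _ hab.1 hab.2
    have hac : a < c := hcut _ _ hab.1 hc
    have had : a < d := hcut _ _ hab.1 hd
    have e0 : ∀ z w : A, W x l1 * (z * w) = W x l1 * z * w := fun z w => (mul_assoc _ _ _).symm
    have eW : W x ((l1 ++ [(a, b)]) ++ (c, d) :: l2) =
        W x l1 * (x a b * x c d) * W x l2 := by
      rw [List.append_assoc, W_append, List.singleton_append, W_cons, W_cons]
      simp only [mul_assoc]
    have eV : ∀ p q : ι × ι, W x (l1 ++ p :: q :: l2) =
        W x l1 * (x p.1 p.2 * x q.1 q.2) * W x l2 := by
      intro p q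
      rw [W_append, W_cons, W_cons]
      simp only [mul_assoc]
    have hnoV : ∀ p q : ι × ι, (p.1 < p.2 ∧ ¬ low p.2) → (q.1 < q.2 ∧ ¬ low q.2) →
        NoIn low (l1 ++ p :: q :: l2) := by
      intro p q hp hq r hr
      simp only [List.mem_append, List.mem_cons] at hr
      rcases hr with h | h | h | h
      · exact hno r (by simp [h])
      · rw [h]; exact hp
      · rw [h]; exact hq
      · exact hno r (by simp [h])
    have hfV : ∀ p q : ι × ι, (p.1 = a ∨ q.1 = a) → Full R (l1 ++ p :: q :: l2) := by
      intro p q hpq r hr
      obtain ⟨s, hs, hsr⟩ := hfull r hr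
      simp only [List.mem_append, List.mem_cons, List.not_mem_nil, or_false] at hs
      rcases hs with (h | h) | h | h
      · exact ⟨s, by simp [h], hsr⟩
      · rw [h] at hsr
        simp only at hsr
        rcases hpq with h' | h'
        · exact ⟨p, by simp, by rw [h', hsr]⟩
        · exact ⟨q, by simp, by rw [h', hsr]⟩
      · exfalso; apply hc; rw [h] at hsr; simp only at hsr; rw [hsr]; exact hR _ hr
      · exact ⟨s, by simp [h], hsr⟩
    have hlV : ∀ p q : ι × ι, (l1 ++ p :: q :: l2).length = N := by
      intro p q
      rw [← hN]; simp
    have hu1 : ups low l1 + (ups low l2 + 1) ≤ u := by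
      rw [ups_append, ups_append, ups_cons_low (p := (a, b)) hab.1,
        ups_cons_up (p := (c, d)) hc] at hu
      have : ups low ([] : List (ι × ι)) = 0 := by classical simp [ups]
      omega
    have hupc : ∀ b', ups low (l1 ++ (c, d) :: (a, b') :: l2) ≤ u := by
      intro b'
      rw [ups_append, ups_cons_up (p := (c, d)) hc, ups_cons_low (p := (a, b')) hab.1]
      exact hu1
    have hupl : ∀ b' b'', ups low (l1 ++ (a, b') :: (a, b'') :: l2) < u := by
      intro b' b''
      rw [ups_append, ups_cons_low (p := (a, b')) hab.1, ups_cons_low (p := (a, b'')) hab.1]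
      omega
    have hcase : ∀ b', ¬ low b' → I (W x l1 * (x c d * x a b') * W x l2) := by
      intro b' hb'
      have := ih ((a, b') :: l2) h1' (hlV (c, d) (a, b')) (hupc b')
        (hnoV (c, d) (a, b') ⟨hcd, hd⟩ ⟨hcut _ _ hab.1 hb', hb'⟩)
        (hfV (c, d) (a, b') (Or.inr rfl))
      rwa [eV] at this
    have hlow : ∀ b' b'', ¬ low b' → ¬ low b'' → I (W x l1 * (x a b' * x a b'') * W x l2) := by
      intro b' b'' hb' hb''
      have := IHU (l1 ++ (a, b') :: (a, b'') :: l2) (hlV _ _) (hupl b' b'')
        (hnoV _ _ ⟨hcut _ _ hab.1 hb', hb'⟩ ⟨hcut _ _ hab.1 hb'', hb''⟩)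
        (hfV _ _ (Or.inl rfl))
      rwa [eV] at this
    rw [eW]
    by_cases hbc : b = c
    · subst hbc
      rw [← hx.r1 a b d hlt hcd, mul_add, add_mul]
      exact hI.add _ _ (hlow d b hd hab.2) (hcase d hd)
    · by_cases hbd : b = d
      · subst hbd
        have h := hx.r2 a c b hac hcd
        have h' : x a b * x c b = x c b * x a c - x a c * x a b := by
          rw [← h]; abel
        rw [h', mul_sub, sub_mul]
        exact hI.sub (hcase c hc) (hlow c b hc hab.2)
      · rw [hx.cm a b c d hlt hcd hac.ne had.ne hbc hbd]
        exact hcase b hab.2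

/-- LEMMA Z. -/
theorem zed (hx : Rel x) (hcut : ∀ a b, low a → ¬ low b → a < b) (hI : Idl I)
    (hR : ∀ a, R a → low a)
    (h0 : ∀ l : List (ι × ι), Out low l → Full R l → (l.map Prod.fst).Nodup → I (W x l))
    (l : List (ι × ι)) (hno : NoIn low l) (hfull : Full R l) : I (W x l) := by
  suffices H : ∀ (N : ℕ), ∀ (u : ℕ) (l : List (ι × ι)), l.length = N → ups low l = u →
      NoIn low l → Full R l → I (W x l) from H l.length (ups low l) l rfl rfl hno hfull
  intro N
  induction N using Nat.strong_induction_on with
  | _ N ihN =>
  intro u
  induction u using Nat.strong_induction_on with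
  | _ u ihu =>
  intro l hN hu hno hfull
  rcases out_or l hno with hout | ⟨l1, p, l2, e, h1, h2⟩
  · exact outWords hx hcut hI h0 N l hN hout hfull
  · subst e
    obtain ⟨c, d⟩ := p
    have hcd := hno (c, d) (by simp)
    exact upStep hx hcut hI hR N u (fun l hl h h' => ihN l.length hl (ups low l) l rfl rfl h h')
      (fun l hl hl' h h' => ihu (ups low l) hl' l hl rfl h h') c d h2 hcd.1 hcd.2 l1 l2 h1 hN
      hu.le hno hfull

/-- LEMMA Z with a number of rows (for Theorem C). -/
theorem zedCount (hx : Rel x) (hcut : ∀ a b, low a → ¬ low b → a < b) (hI : Idl I) (r : ℕ)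
    (h0 : ∀ l : List (ι × ι), Out low l → (l.map Prod.fst).Nodup → l.length = r → I (W x l))
    (l : List (ι × ι)) (hno : NoIn low l) (S : Finset ι) (hS : r ≤ S.card)
    (hSl : ∀ a ∈ S, low a ∧ ∃ p ∈ l, p.1 = a) : I (W x l) := by
  apply zed (R := fun a => a ∈ S) hx hcut hI (fun a ha => (hSl a ha).1) _ l hno
    (fun a ha => (hSl a ha).2)
  intro m hout hfull hnd
  have hlen : r ≤ m.length := by
    classical
    have h1 : S ⊆ (m.map Prod.fst).toFinset := by
      intro a ha
      obtain ⟨p, hp, hpa⟩ := hfull a ha
      rw [List.mem_toFinset, ← hpa]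
      exact List.mem_map_of_mem hp
    have h2 := Finset.card_le_card h1
    have h3 := List.toFinset_card_le (m.map Prod.fst)
    rw [List.length_map] at h3
    omega
  have e : m = m.take r ++ m.drop r := (List.take_append_drop r m).symm
  rw [e, W_append]
  apply hI.right
  apply h0
  · intro p hp
    exact hout p (List.mem_of_mem_take hp)
  · rw [List.map_take]
    exact hnd.sublist (List.take_sublist _ _)
  · rw [List.length_take]; omega

end

end Pool.Agent.FKZ
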